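import Pool.Agent.Q214.SFT.Main

/-!
# A subshift of finite type with a Baire measurable but no measurable equivariant map

Let `d ≥ 2`.  Some subshift of finite type `S` of `ℤ^d` admits a Baire measurable equivariant map
`F(2^{ℤ^d}) → S`, but no equivariant map that is measurable for the coin flip measure, hence no Borel
one.  So neither (i) ⇔ (ii) nor (ii) ⇔ (iii) holds for every subshift of finite type.
-/

set_option autoImplicit false

namespace Pool.Agent.Results.MP_6540cb_lc.BaireSeparated

open Pool.Agent.Q214.SFT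

/-- For `d ≥ 2` there is a subshift of finite type `S` of `ℤ^d` which satisfies condition (ii) and
satisfies neither (i) nor (iii); condition (iii) fails for the coin flip measure.  In particular the
equivalences (i) ⇔ (ii) and (ii) ⇔ (iii) do not hold for all subshifts of finite type. -/
theorem result (d : ℕ) (hd : 2 ≤ d) :
    (∃ (k : ℕ) (S : Set (Zd d → Fin k)), IsSFT S ∧ CondBaire S ∧ ¬ CondBorel S ∧
      ¬ CondMeasure S ∧ ¬ MeasFor S (coin d)) ∧
    MeasureTheory.IsProbabilityMeasure (coin d) ∧
    ¬ (∀ (k : ℕ) (S : Set (Zd d → Fin k)), IsSFT S → (CondBorel S ↔ CondBaire S)) ∧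
    ¬ (∀ (k : ℕ) (S : Set (Zd d → Fin k)), IsSFT S → (CondBaire S ↔ CondMeasure S)) := by
  obtain ⟨k, S, h1, h2, h3⟩ := main hd
  have h4 : ¬ CondMeasure S := fun h => h3 (h (coin d) inferInstance)
  have h5 : ¬ CondBorel S := by
    rintro ⟨T, hT, hm⟩
    exact h3 ⟨T, hT, fun B hB => (hm hB).nullMeasurableSet⟩
  exact ⟨⟨k, S, h1, h2, h5, h4, h3⟩, inferInstance, fun h => h5 ((h k S h1).2 h2), fun h => h4 ((h k S h1).1 h2)⟩

end Pool.Agent.Results.MP_6540cb_lc.BaireSeparated
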